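import Pool.Agent.Y507.CMC.Stm

/-! Project CMC (helper507), job CM-CVX: the domain `dom 0 (k0 w)` is convex. -/

set_option autoImplicit false

namespace Pool.Agent.Y145.CMC

open Set
open Pool.Agent.Y507.CMC

/-- the upper boundary for `w = 1` -/
noncomputable def hh (x : ℝ) : ℝ := (1 + 3 / 4 * x + 1 / 5 * x ^ 2) * Real.sqrt (1 - x ^ 2)

/-- its derivative -/
noncomputable def hd (x : ℝ) : ℝ := (3 / 4 + 2 / 5 * x) * Real.sqrt (1 - x ^ 2) -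
  (1 + 3 / 4 * x + 1 / 5 * x ^ 2) * x * (Real.sqrt (1 - x ^ 2))⁻¹

/-- its second derivative -/
noncomputable def hdd (x : ℝ) : ℝ := 2 / 5 * Real.sqrt (1 - x ^ 2) -
  2 * (3 / 4 + 2 / 5 * x) * x * (Real.sqrt (1 - x ^ 2))⁻¹ -
  (1 + 3 / 4 * x + 1 / 5 * x ^ 2) * (Real.sqrt (1 - x ^ 2))⁻¹ -
  (1 + 3 / 4 * x + 1 / 5 * x ^ 2) * x ^ 2 * (Real.sqrt (1 - x ^ 2))⁻¹ ^ 3

lemma der_P (x : ℝ) : HasDerivAt (fun x : ℝ => 1 + 3 / 4 * x + 1 / 5 * x ^ 2) (3 / 4 + 2 / 5 * x) x := by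
  have h1 : HasDerivAt (fun x : ℝ => 3 / 4 * x) (3 / 4) x := by
    simpa using (hasDerivAt_id x).const_mul (3 / 4 : ℝ)
  have h2 : HasDerivAt (fun x : ℝ => 1 / 5 * x ^ 2) (1 / 5 * (2 * x)) x := by
    simpa using (hasDerivAt_pow 2 x).const_mul (1 / 5 : ℝ)
  have h3 := (h1.const_add 1).add h2
  have e : (3 / 4 : ℝ) + 1 / 5 * (2 * x) = 3 / 4 + 2 / 5 * x := by ring
  rw [e] at h3
  exact h3

lemma der_s {x : ℝ} (hx : 0 < 1 - x ^ 2) :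
    HasDerivAt (fun x : ℝ => Real.sqrt (1 - x ^ 2)) (-(x * (Real.sqrt (1 - x ^ 2))⁻¹)) x := by
  have h1 : HasDerivAt (fun x : ℝ => 1 - x ^ 2) (-(2 * x)) x := by
    simpa using (hasDerivAt_pow 2 x).const_sub (1 : ℝ)
  have h2 := h1.sqrt hx.ne'
  have e : -(2 * x) / (2 * Real.sqrt (1 - x ^ 2)) = -(x * (Real.sqrt (1 - x ^ 2))⁻¹) := by
    rw [neg_div, mul_div_mul_left _ _ (by norm_num : (2 : ℝ) ≠ 0), div_eq_mul_inv]
  rw [e] at h2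
  exact h2

lemma der_u {x : ℝ} (hx : 0 < 1 - x ^ 2) :
    HasDerivAt (fun x : ℝ => (Real.sqrt (1 - x ^ 2))⁻¹) (x * (Real.sqrt (1 - x ^ 2))⁻¹ ^ 3) x := by
  have hs : 0 < Real.sqrt (1 - x ^ 2) := Real.sqrt_pos.2 hx
  have h2 := (der_s hx).inv hs.ne'
  have e : -(-(x * (Real.sqrt (1 - x ^ 2))⁻¹)) / Real.sqrt (1 - x ^ 2) ^ 2 =
      x * (Real.sqrt (1 - x ^ 2))⁻¹ ^ 3 := by
    rw [neg_neg, div_eq_mul_inv, ← inv_pow]
    ring
  rw [e] at h2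
  exact h2

lemma der_hh {x : ℝ} (hx : 0 < 1 - x ^ 2) : HasDerivAt hh (hd x) x := by
  have h1 := (der_P x).mul (der_s hx)
  have e : (3 / 4 + 2 / 5 * x) * Real.sqrt (1 - x ^ 2) +
      (1 + 3 / 4 * x + 1 / 5 * x ^ 2) * -(x * (Real.sqrt (1 - x ^ 2))⁻¹) = hd x := by
    unfold hd
    ring
  rw [e] at h1
  exact h1

lemma der_hd {x : ℝ} (hx : 0 < 1 - x ^ 2) : HasDerivAt hd (hdd x) x := by
  have h0 : HasDerivAt (fun x : ℝ => 3 / 4 + 2 / 5 * x) (2 / 5) x := by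
    simpa using ((hasDerivAt_id x).const_mul (2 / 5 : ℝ)).const_add (3 / 4 : ℝ)
  have h1 := h0.mul (der_s hx)
  have h2 := ((der_P x).mul (hasDerivAt_id x)).mul (der_u hx)
  have h3 := h1.sub h2
  have e : 2 / 5 * Real.sqrt (1 - x ^ 2) + (3 / 4 + 2 / 5 * x) * -(x * (Real.sqrt (1 - x ^ 2))⁻¹) -
      (((3 / 4 + 2 / 5 * x) * x + (1 + 3 / 4 * x + 1 / 5 * x ^ 2) * 1) * (Real.sqrt (1 - x ^ 2))⁻¹ +
        (1 + 3 / 4 * x + 1 / 5 * x ^ 2) * x * (x * (Real.sqrt (1 - x ^ 2))⁻¹ ^ 3)) = hdd x := by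
    unfold hdd
    ring
  have h4 : HasDerivAt hd (2 / 5 * Real.sqrt (1 - x ^ 2) +
      (3 / 4 + 2 / 5 * x) * -(x * (Real.sqrt (1 - x ^ 2))⁻¹) -
      (((3 / 4 + 2 / 5 * x) * x + (1 + 3 / 4 * x + 1 / 5 * x ^ 2) * 1) * (Real.sqrt (1 - x ^ 2))⁻¹ +
        (1 + 3 / 4 * x + 1 / 5 * x ^ 2) * x * (x * (Real.sqrt (1 - x ^ 2))⁻¹ ^ 3))) x := h3
  rw [e] at h4
  exact h4

lemma Q_nonneg {x : ℝ} (h1 : -1 ≤ x) (h2 : x ≤ 1) :
    0 ≤ 3 / 5 + 9 / 4 * x + 9 / 5 * x ^ 2 - 3 / 2 * x ^ 3 - 6 / 5 * x ^ 4 := by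
  have hr : 0 ≤ -(6 / 5) * x ^ 2 - 87 / 250 * x + 7533 / 3125 := by nlinarith
  have h3 := mul_nonneg (sq_nonneg (x + 12 / 25)) hr
  nlinarith

lemma hdd_nonpos {x : ℝ} (h1 : -1 < x) (h2 : x < 1) : hdd x ≤ 0 := by
  have hx : 0 < 1 - x ^ 2 := by nlinarith
  have hs : 0 < Real.sqrt (1 - x ^ 2) := Real.sqrt_pos.2 hx
  have hs2 : Real.sqrt (1 - x ^ 2) ^ 2 = 1 - x ^ 2 := Real.sq_sqrt hx.le
  unfold hdd
  set s := Real.sqrt (1 - x ^ 2) with hsd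
  have hu : 0 < s⁻¹ := inv_pos.2 hs
  have hsu : s * s⁻¹ = 1 := mul_inv_cancel₀ hs.ne'
  set u := s⁻¹ with hud
  have e1 : s = (1 - x ^ 2) ^ 2 * u ^ 3 := by
    rw [← hs2]
    calc s = s * (s * u) ^ 3 := by rw [hsu]; ring
      _ = (s ^ 2) ^ 2 * u ^ 3 := by ring
  have e2 : u = (1 - x ^ 2) * u ^ 3 := by
    rw [← hs2]
    calc u = u * (s * u) ^ 2 := by rw [hsu]; ring
      _ = s ^ 2 * u ^ 3 := by ring
  have e3 : 2 / 5 * s - 2 * (3 / 4 + 2 / 5 * x) * x * u - (1 + 3 / 4 * x + 1 / 5 * x ^ 2) * u -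
      (1 + 3 / 4 * x + 1 / 5 * x ^ 2) * x ^ 2 * u ^ 3 =
      -((3 / 5 + 9 / 4 * x + 9 / 5 * x ^ 2 - 3 / 2 * x ^ 3 - 6 / 5 * x ^ 4) * u ^ 3) := by
    linear_combination (2 / 5) * e1 - (2 * (3 / 4 + 2 / 5 * x) * x +
      (1 + 3 / 4 * x + 1 / 5 * x ^ 2)) * e2
  rw [e3]
  have := mul_nonneg (Q_nonneg h1.le h2.le) (pow_nonneg hu.le 3)
  linarith

lemma conc : ConcaveOn ℝ (Ioo (-1 : ℝ) 1) hh := by
  have hpos : ∀ x ∈ Ioo (-1 : ℝ) 1, 0 < 1 - x ^ 2 := by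
    rintro x ⟨h1, h2⟩
    nlinarith
  apply concaveOn_of_hasDerivWithinAt2_nonpos (f' := hd) (f'' := hdd) (convex_Ioo _ _)
  · intro x hx
    exact (der_hh (hpos x hx)).continuousAt.continuousWithinAt
  · intro x hx
    rw [interior_Ioo] at hx ⊢
    exact (der_hh (hpos x hx)).hasDerivWithinAt
  · intro x hx
    rw [interior_Ioo] at hx ⊢
    exact (der_hd (hpos x hx)).hasDerivWithinAt
  · intro x hx
    rw [interior_Ioo] at hx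
    exact hdd_nonpos hx.1 hx.2

lemma P_pos (x : ℝ) : 0 < 1 + 3 / 4 * x + 1 / 5 * x ^ 2 := by nlinarith [sq_nonneg (x + 15 / 8)]

lemma mem_iff {w : ℝ} (hw : 0 < w) (x : E2) :
    x ∈ dom (fun _ => 0) (k0 w) ↔ x 0 ∈ Ioo (-1 : ℝ) 1 ∧ |x 1| < w * hh (x 0) := by
  have hk : 0 < k0 w (x 0) := mul_pos hw (P_pos _)
  have h1 : x ∈ dom (fun _ => 0) (k0 w) ↔ |x 1 / k0 w (x 0)| ^ 2 < 1 - x 0 ^ 2 := by
    unfold dom
    rw [mem_setOf_eq, sq_abs, sub_zero]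
    constructor
    · intro h; linarith
    · intro h; linarith
  rw [h1, ← Real.lt_sqrt (abs_nonneg _), abs_div, abs_of_pos hk, div_lt_iff₀ hk]
  have e : Real.sqrt (1 - x 0 ^ 2) * k0 w (x 0) = w * hh (x 0) := by
    unfold hh k0
    ring
  rw [e]
  constructor
  · intro h
    refine ⟨?_, h⟩
    have h2 : 0 < Real.sqrt (1 - x 0 ^ 2) := by
      by_contra hcon
      push Not at hcon
      have h3 : w * hh (x 0) ≤ 0 := by
        rw [← e]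
        exact mul_nonpos_of_nonpos_of_nonneg hcon hk.le
      linarith [abs_nonneg (x 1)]
    have h3 : 0 < 1 - x 0 ^ 2 := Real.sqrt_pos.1 h2
    constructor
    · nlinarith
    · nlinarith
  · exact fun h => h.2

theorem thm : S_CVX := by
  intro w hw x hx y hy a b ha hb hab
  rw [mem_iff hw] at hx hy ⊢
  obtain ⟨hx1, hx2⟩ := hx
  obtain ⟨hy1, hy2⟩ := hy
  have h0 : (a • x + b • y) 0 = a * x 0 + b * y 0 := by simp
  have h1 : (a • x + b • y) 1 = a * x 1 + b * y 1 := by simp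
  rw [h0, h1]
  refine ⟨(convex_Ioo (-1 : ℝ) 1) hx1 hy1 ha hb hab, ?_⟩
  have h2 : a * hh (x 0) + b * hh (y 0) ≤ hh (a * x 0 + b * y 0) :=
    conc.2 hx1 hy1 ha hb hab
  have h3 : |a * x 1 + b * y 1| ≤ a * |x 1| + b * |y 1| := by
    refine (abs_add_le _ _).trans ?_
    rw [abs_mul, abs_mul, abs_of_nonneg ha, abs_of_nonneg hb]
  have h4 : a * |x 1| + b * |y 1| < a * (w * hh (x 0)) + b * (w * hh (y 0)) := by
    rcases ha.eq_or_lt with h | h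
    · subst h
      have hb1 : b = 1 := by linarith
      subst hb1
      linarith
    · have h5 : a * |x 1| < a * (w * hh (x 0)) := mul_lt_mul_of_pos_left hx2 h
      have h6 : b * |y 1| ≤ b * (w * hh (y 0)) := mul_le_mul_of_nonneg_left hy2.le hb
      linarith
  have h5 : a * (w * hh (x 0)) + b * (w * hh (y 0)) ≤ w * hh (a * x 0 + b * y 0) := by
    calc a * (w * hh (x 0)) + b * (w * hh (y 0)) = w * (a * hh (x 0) + b * hh (y 0)) := by ring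
      _ ≤ w * hh (a * x 0 + b * y 0) := mul_le_mul_of_nonneg_left h2 hw.le
  linarith

end Pool.Agent.Y145.CMC
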